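import Pool.Agent.N290.RK.Stm2

/-!
# RK/XQ (helper833): estimates of `P_j`
-/

set_option autoImplicit false

open Complex Set Filter Topology

namespace Pool.Agent.N833.RK

open Pool.Agent.N290.RJ Pool.Agent.N290.RK

section plane

variable {φ : ℂ → ℝ} {L : ℝ}

theorem fd_one (h : ∀ w, ‖fderiv ℝ φ w‖ ≤ L) (w η : ℂ) : |fderiv ℝ φ w η| ≤ L * ‖η‖ := by
  have h1 := (fderiv ℝ φ w).le_opNorm η
  exact h1.trans (mul_le_mul_of_nonneg_right (h w) (norm_nonneg _))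

theorem half_norm {a b c : ℝ} (ha : |a| ≤ c) (hb : |b| ≤ c) :
    ‖(((a : ℝ) : ℂ) - I * ((b : ℝ) : ℂ)) / 2‖ ≤ c := by
  rw [norm_div]
  have h1 := norm_sub_le ((a : ℝ) : ℂ) (I * ((b : ℝ) : ℂ))
  rw [norm_mul, Complex.norm_I, one_mul, Complex.norm_real, Complex.norm_real, Real.norm_eq_abs,
    Real.norm_eq_abs] at h1
  have h2 : ‖(2 : ℂ)‖ = 2 := by simp
  rw [h2, div_le_iff₀ (by norm_num)]
  linarith

theorem dw_norm (h : ∀ w, ‖fderiv ℝ φ w‖ ≤ L) (w : ℂ) : ‖dw φ w‖ ≤ L := by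
  unfold dw
  refine half_norm ?_ ?_
  · have := fd_one h w 1
    rwa [norm_one, mul_one] at this
  · have := fd_one h w I
    rwa [Complex.norm_I, mul_one] at this

theorem dw_fd (hφ : ContDiff ℝ 2 φ) (w η : ℂ) : DifferentiableAt ℝ (dw φ) w ∧
    fderiv ℝ (dw φ) w η = (((fderiv ℝ (fderiv ℝ φ) w η 1 : ℝ) : ℂ) -
      I * ((fderiv ℝ (fderiv ℝ φ) w η I : ℝ) : ℂ)) / 2 := by
  have h0 : DifferentiableAt ℝ (fderiv ℝ φ) w :=
    ((hφ.fderiv_right (m := 1) (by norm_num)).differentiable (by norm_num)) w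
  have h1 := h0.hasFDerivAt
  have hx : ∀ v : ℂ, HasFDerivAt (fun w => ((fderiv ℝ φ w v : ℝ) : ℂ))
      (Complex.ofRealCLM.comp ((ContinuousLinearMap.apply ℝ ℝ v).comp
        (fderiv ℝ (fderiv ℝ φ) w))) w := by
    intro v
    have h2 : HasFDerivAt (fun w => fderiv ℝ φ w v) ((ContinuousLinearMap.apply ℝ ℝ v).comp
        (fderiv ℝ (fderiv ℝ φ) w)) w :=
      (ContinuousLinearMap.apply ℝ ℝ v).hasFDerivAt.comp w h1
    exact Complex.ofRealCLM.hasFDerivAt.comp w h2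
  have h3 := ((hx 1).sub ((hx I).const_mul I)).const_mul (1 / 2 : ℂ)
  have h4 : (fun w => (1 / 2 : ℂ) * (((fderiv ℝ φ w 1 : ℝ) : ℂ) -
      I * ((fderiv ℝ φ w I : ℝ) : ℂ))) = dw φ := by
    funext w
    unfold dw
    ring
  have h5 : HasFDerivAt (dw φ) ((1 / 2 : ℂ) • (Complex.ofRealCLM.comp
      ((ContinuousLinearMap.apply ℝ ℝ (1 : ℂ)).comp (fderiv ℝ (fderiv ℝ φ) w)) -
      I • Complex.ofRealCLM.comp
      ((ContinuousLinearMap.apply ℝ ℝ I).comp (fderiv ℝ (fderiv ℝ φ) w)))) w := by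
    rw [← h4]
    exact h3
  refine ⟨h5.differentiableAt, ?_⟩
  rw [h5.fderiv]
  simp
  ring

/-- `g = φ conj (dw φ)` -/
noncomputable def g (φ : ℂ → ℝ) (w : ℂ) : ℂ := (φ w : ℂ) * starRingEnd ℂ (dw φ w)

theorem g_norm (h : ∀ w, ‖fderiv ℝ φ w‖ ≤ L) (h2 : ∀ w, 0 ≤ φ w ∧ φ w ≤ 1) (w : ℂ) :
    ‖g φ w‖ = φ w * ‖dw φ w‖ ∧ ‖g φ w‖ ≤ L := by
  have h3 : ‖g φ w‖ = φ w * ‖dw φ w‖ := by
    unfold g
    rw [norm_mul, Complex.norm_real, Real.norm_eq_abs, abs_of_nonneg (h2 w).1,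
      RCLike.norm_conj]
  refine ⟨h3, ?_⟩
  rw [h3]
  have h4 := dw_norm h w
  have h5 := norm_nonneg (dw φ w)
  have h6 := h2 w
  nlinarith

theorem g_fd (hφ : ContDiff ℝ 2 φ) (h : ∀ w, ‖fderiv ℝ φ w‖ ≤ L)
    (h2 : ∀ w, 0 ≤ φ w ∧ φ w ≤ 1) (h4 : ∀ w, ‖fderiv ℝ (fderiv ℝ φ) w‖ ≤ L) (hL : 0 ≤ L)
    (w : ℂ) : DifferentiableAt ℝ (g φ) w ∧ ‖fderiv ℝ (g φ) w‖ ≤ L ^ 2 + L := by
  have hφd : DifferentiableAt ℝ φ w := (hφ.differentiable (by norm_num)) w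
  have h5 : HasFDerivAt (fun w => ((φ w : ℝ) : ℂ)) (Complex.ofRealCLM.comp (fderiv ℝ φ w)) w :=
    Complex.ofRealCLM.hasFDerivAt.comp w hφd.hasFDerivAt
  have h6 : HasFDerivAt (fun w => starRingEnd ℂ (dw φ w))
      ((Complex.conjCLE : ℂ →L[ℝ] ℂ).comp (fderiv ℝ (dw φ) w)) w :=
    (Complex.conjCLE : ℂ →L[ℝ] ℂ).hasFDerivAt.comp w (dw_fd hφ w 0).1.hasFDerivAt
  have h7 := h5.mul h6
  refine ⟨h7.differentiableAt, ?_⟩
  refine ContinuousLinearMap.opNorm_le_bound _ (by positivity) fun η => ?_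
  have h8 : fderiv ℝ (g φ) w η = (φ w : ℂ) * starRingEnd ℂ (fderiv ℝ (dw φ) w η) +
      starRingEnd ℂ (dw φ w) * ((fderiv ℝ φ w η : ℝ) : ℂ) := by
    have h9 : fderiv ℝ (g φ) w = _ := h7.fderiv
    rw [h9]
    simp
  rw [h8]
  have a1 : ‖fderiv ℝ (dw φ) w η‖ ≤ L * ‖η‖ := by
    rw [(dw_fd hφ w η).2]
    have b : ∀ v : ℂ, ‖v‖ = 1 → |fderiv ℝ (fderiv ℝ φ) w η v| ≤ L * ‖η‖ := by
      intro v hv
      have b1 := (fderiv ℝ (fderiv ℝ φ) w η).le_opNorm v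
      have b2 := (fderiv ℝ (fderiv ℝ φ) w).le_opNorm η
      rw [hv, mul_one] at b1
      exact b1.trans (b2.trans (mul_le_mul_of_nonneg_right (h4 w) (norm_nonneg _)))
    exact half_norm (b 1 norm_one) (b I Complex.norm_I)
  have a2 := fd_one h w η
  have a3 := dw_norm h w
  have a4 := h2 w
  refine (norm_add_le _ _).trans ?_
  rw [norm_mul, norm_mul, Complex.norm_real, Complex.norm_real, RCLike.norm_conj,
    RCLike.norm_conj, Real.norm_eq_abs, Real.norm_eq_abs, abs_of_nonneg a4.1]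
  have a5 : φ w * ‖fderiv ℝ (dw φ) w η‖ ≤ 1 * (L * ‖η‖) :=
    mul_le_mul a4.2 a1 (norm_nonneg _) zero_le_one
  have a6 : ‖dw φ w‖ * |fderiv ℝ φ w η| ≤ L * (L * ‖η‖) :=
    mul_le_mul a3 a2 (abs_nonneg _) hL
  calc _ ≤ 1 * (L * ‖η‖) + L * (L * ‖η‖) := add_le_add a5 a6
    _ = _ := by ring

theorem g_lip (hφ : ContDiff ℝ 2 φ) (h : ∀ w, ‖fderiv ℝ φ w‖ ≤ L)
    (h2 : ∀ w, 0 ≤ φ w ∧ φ w ≤ 1) (h4 : ∀ w, ‖fderiv ℝ (fderiv ℝ φ) w‖ ≤ L) (hL : 0 ≤ L)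
    (w w' : ℂ) : ‖g φ w' - g φ w‖ ≤ (L ^ 2 + L) * ‖w' - w‖ :=
  Convex.norm_image_sub_le_of_norm_fderiv_le (𝕜 := ℝ) (s := univ)
    (fun x _ => (g_fd hφ h h2 h4 hL x).1) (fun x _ => (g_fd hφ h h2 h4 hL x).2) convex_univ
    (mem_univ _) (mem_univ _)

end plane

theorem exp_norm (s : ℝ) : ‖exp (-(I * (s : ℂ)))‖ = 1 := by
  have : -(I * (s : ℂ)) = ((-s : ℝ) : ℂ) * I := by push_cast; ring
  rw [this, Complex.norm_exp_ofReal_mul_I]

theorem exp_diff (s s' : ℝ) : ‖exp (-(I * (s' : ℂ))) - exp (-(I * (s : ℂ)))‖ ≤ |s' - s| := by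
  have h1 : exp (-(I * (s' : ℂ))) - exp (-(I * (s : ℂ))) =
      exp (-(I * (s : ℂ))) * (exp (I * ((s - s' : ℝ) : ℂ)) - 1) := by
    rw [mul_sub, ← Complex.exp_add, mul_one]
    congr 2
    push_cast
    ring
  rw [h1, norm_mul, exp_norm, one_mul]
  refine (Real.norm_exp_I_mul_ofReal_sub_one_le (x := s - s')).trans ?_
  rw [Real.norm_eq_abs, abs_sub_comm]

section ball

variable {d : ℕ}

theorem dS {S : E d → ℝ} {z : E d} (hS : DifferentiableAt ℝ S z) (ξ : E d) :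
    |fderiv ℝ S z ξ| ≤ 2 * ‖db (fun w => (S w : ℂ)) z ξ‖ := by
  have h1 : HasFDerivAt (fun w => (S w : ℂ)) (Complex.ofRealCLM.comp (fderiv ℝ S z)) z :=
    Complex.ofRealCLM.hasFDerivAt.comp z hS.hasFDerivAt
  have h2 : (db (fun w => (S w : ℂ)) z ξ).re = fderiv ℝ S z ξ / 2 := by
    unfold db
    rw [h1.fderiv]
    simp
  have h3 := Complex.abs_re_le_norm (db (fun w => (S w : ℂ)) z ξ)
  rw [h2, abs_div, abs_of_pos (by norm_num : (0 : ℝ) < 2)] at h3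
  linarith

theorem dP {G : E d → ℂ} {S : E d → ℝ} {z : E d} (hG : DifferentiableAt ℝ G z)
    (hS : DifferentiableAt ℝ S z) (ξ : E d) :
    ‖fderiv ℝ (fun w => 4 * G w * exp (-(I * (S w : ℂ)))) z ξ‖ ≤
      4 * ‖fderiv ℝ G z ξ‖ + 4 * (‖G z‖ * |fderiv ℝ S z ξ|) := by
  have h1 : HasFDerivAt (fun w => (S w : ℂ)) (Complex.ofRealCLM.comp (fderiv ℝ S z)) z :=
    Complex.ofRealCLM.hasFDerivAt.comp z hS.hasFDerivAt
  have h2 := ((h1.const_mul I).neg).cexp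
  have h3 := (hG.hasFDerivAt.const_mul (4 : ℂ)).mul h2
  have h4 : fderiv ℝ (fun w => 4 * G w * exp (-(I * (S w : ℂ)))) z ξ =
      4 * G z * (exp (-(I * (S z : ℂ))) * (-(I * ((fderiv ℝ S z ξ : ℝ) : ℂ)))) +
        exp (-(I * (S z : ℂ))) * (4 * fderiv ℝ G z ξ) := by
    have h5 : fderiv ℝ (fun w => 4 * G w * exp (-(I * (S w : ℂ)))) z = _ := h3.fderiv
    rw [h5]
    simp
  rw [h4]
  refine (norm_add_le _ _).trans ?_
  have h6 : ‖(4 : ℂ)‖ = 4 := by simp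
  rw [norm_mul, norm_mul, norm_mul, norm_mul, norm_mul, exp_norm, norm_neg, norm_mul,
    Complex.norm_I, Complex.norm_real, Real.norm_eq_abs, h6]
  apply le_of_eq
  ring

end ball

theorem XQ_of (d : ℕ) (h3 : R3a) (hA : XA d) (hF : XF d) (_hP : XP d) (hS : XS d) : XQ d := by
  intro K C A L
  obtain ⟨C₂, hC₂, hS⟩ := hS K C A L
  by_cases hK : 1 ≤ K ∧ 1 ≤ L
  swap
  · exact ⟨1, one_pos, fun ε₂ φ χ h ω f hD => absurd ⟨hD.hK, hD.hL⟩ hK⟩
  obtain ⟨hK1, hL1⟩ := hK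
  have hK0 : 0 < K := by linarith
  have hL0 : 0 < L := by linarith
  obtain ⟨C₃, hC₃⟩ : ∃ C₃, C₃ = 4 * L + K * (20 * L ^ 2 + 4 * L) + 6 * K * (L ^ 2 + L) +
      8 * L * C₂ + 24 * L ^ 2 * K := ⟨_, rfl⟩
  refine ⟨C₃, by rw [hC₃]; positivity, ?_⟩
  intro ε₂ φ χ h ω f D j
  have hA0 : 0 < A := by have := D.hA; linarith
  have hA1 : 1 ≤ A := by have := D.hA; linarith
  obtain ⟨r1, -, -, r4, -, -⟩ := h3 φ L D.φ1 hL0 D.φ2 D.φ3 D.φ4
  have hPj : ∀ i, Pj φ A h f i = fun z => 4 * g φ (f (rad i • z)) *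
      exp (-(I * (Sj φ A h f i z : ℂ))) := by
    intro i
    funext z
    unfold Pj g
    ring
  have hFj : ContDiffOn ℝ 1 (fun w => f (rad j • w)) (B d) :=
    cd_dil (cd_hol D.f1) (rad_nonneg j) (rad_lt_one j).le
  have hgC : ContDiff ℝ 1 (g φ) := by
    unfold g
    exact (Complex.ofRealCLM.contDiff.comp (D.φ1.of_le (by norm_num))).mul
      ((Complex.conjCLE : ℂ →L[ℝ] ℂ).contDiff.comp r1)
  obtain ⟨hSj, hSe⟩ := hS ε₂ φ χ h ω f D j
  have hgF : ContDiffOn ℝ 1 (fun w => g φ (f (rad j • w))) (B d) := hgC.comp_contDiffOn hFj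
  refine ⟨?_, fun z hz => ?_⟩
  · rw [hPj]
    exact (contDiffOn_const.mul hgF).mul (ContDiffOn.cexp
      ((contDiffOn_const.mul (Complex.ofRealCLM.contDiff.comp_contDiffOn hSj)).neg))
  obtain ⟨s0, s1, u0, u1, -, -, -, f2, f3⟩ := hF K C A L ε₂ φ χ h ω f D j z hz
  obtain ⟨-, hAl⟩ := hA K C A h ω D.hK D.hC hA0 D.slow D.pos D.h1 D.h2 D.h3 D.h4 j
  obtain ⟨al0, al1, -, -, -, -, -⟩ := hAl z hz
  obtain ⟨a, ha⟩ : ∃ a, a = ω (1 - N z) := ⟨_, rfl⟩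
  have ha0 : 0 < a := by rw [ha]; exact D.pos _ (sub_pos.2 hz)
  rw [← ha] at f2 f3 al1 ⊢
  obtain ⟨u, hu⟩ : ∃ u, u = uu z (rad j) := ⟨_, rfl⟩
  rw [← hu] at u0 u1 f2 f3 ⊢
  have n4 : ‖(4 : ℂ)‖ = 4 := by simp
  have hg := g_norm D.φ3 D.φ2
  obtain ⟨p1, p2, p3⟩ := r4 (f (rad j • z)) (al A h j z) al0
  have hφ0 := (D.φ2 (f (rad j • z))).1
  -- `|g| |p| ≤ 2 L ^ 2`
  have hgp : ‖g φ (f (rad j • z))‖ * ‖pj φ A h f j z‖ ≤ 2 * L ^ 2 := by
    rw [(hg _).1]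
    have e1 : φ (f (rad j • z)) * ‖dw φ (f (rad j • z))‖ * ‖pj φ A h f j z‖ =
        (‖pj φ A h f j z‖ * φ (f (rad j • z))) * ‖dw φ (f (rad j • z))‖ := by ring
    rw [e1]
    have e2 : ‖pj φ A h f j z‖ * φ (f (rad j • z)) ≤ 2 * L := p1
    have e3 := dw_norm D.φ3 (f (rad j • z))
    calc _ ≤ (2 * L) * L := mul_le_mul e2 e3 (norm_nonneg _) (by positivity)
      _ = 2 * L ^ 2 := by ring
  refine ⟨?_, ?_, fun ξ => ?_⟩
  · rw [hPj]
    show ‖4 * g φ (f (rad j • z)) * exp (-(I * (Sj φ A h f j z : ℂ)))‖ ≤ C₃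
    rw [norm_mul, norm_mul, exp_norm, mul_one, n4]
    have e1 := (hg (f (rad j • z))).2
    have e2 : 0 ≤ K * (20 * L ^ 2 + 4 * L) + 6 * K * (L ^ 2 + L) + 8 * L * C₂ +
      24 * L ^ 2 * K := by positivity
    rw [hC₃]
    linarith
  · rw [hPj, hPj]
    show ‖4 * g φ (f (rad (j + 1) • z)) * exp (-(I * (Sj φ A h f (j + 1) z : ℂ))) -
      4 * g φ (f (rad j • z)) * exp (-(I * (Sj φ A h f j z : ℂ)))‖ ≤ _
    have e0 : 4 * g φ (f (rad (j + 1) • z)) * exp (-(I * (Sj φ A h f (j + 1) z : ℂ))) -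
        4 * g φ (f (rad j • z)) * exp (-(I * (Sj φ A h f j z : ℂ))) =
        4 * (g φ (f (rad (j + 1) • z)) - g φ (f (rad j • z))) *
          exp (-(I * (Sj φ A h f (j + 1) z : ℂ))) +
        4 * g φ (f (rad j • z)) * (exp (-(I * (Sj φ A h f (j + 1) z : ℂ))) -
          exp (-(I * (Sj φ A h f j z : ℂ)))) := by ring
    rw [e0]
    refine (norm_add_le _ _).trans ?_
    rw [norm_mul, norm_mul, norm_mul, norm_mul, exp_norm, n4, mul_one]
    have e1 := g_lip D.φ1 D.φ3 D.φ2 D.φ4 hL0.le (f (rad j • z)) (f (rad (j + 1) • z))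
    have e2 := exp_diff (Sj φ A h f j z) (Sj φ A h f (j + 1) z)
    have e3 : |Sj φ A h f (j + 1) z - Sj φ A h f j z| ≤
        2 * (‖pj φ A h f j z‖ * ‖f (rad (j + 1) • z) - f (rad j • z)‖) := by
      have : Sj φ A h f (j + 1) z = Sj φ A h f j z + 2 * (pj φ A h f j z *
        (f (rad (j + 1) • z) - f (rad j • z))).im := rfl
      rw [this, add_sub_cancel_left, abs_mul, abs_of_pos (by norm_num : (0 : ℝ) < 2), ← norm_mul]
      exact mul_le_mul_of_nonneg_left (Complex.abs_im_le_norm _) (by norm_num)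
    obtain ⟨δ, hδ⟩ : ∃ δ, δ = ‖f (rad (j + 1) • z) - f (rad j • z)‖ := ⟨_, rfl⟩
    rw [← hδ] at e1 e3 f2
    have hδ0 : 0 ≤ δ := by rw [hδ]; exact norm_nonneg _
    have e4 : ‖g φ (f (rad j • z))‖ * ‖exp (-(I * (Sj φ A h f (j + 1) z : ℂ))) -
        exp (-(I * (Sj φ A h f j z : ℂ)))‖ ≤ 4 * L ^ 2 * δ := by
      have e5 := mul_le_mul_of_nonneg_left (e2.trans e3) (norm_nonneg (g φ (f (rad j • z))))
      refine e5.trans ?_
      have e6 := mul_le_mul_of_nonneg_right hgp hδ0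
      calc _ = 2 * (‖g φ (f (rad j • z))‖ * ‖pj φ A h f j z‖ * δ) := by ring
        _ ≤ 2 * (2 * L ^ 2 * δ) := by linarith
        _ = _ := by ring
    have e7 : 4 * ‖g φ (f (rad (j + 1) • z)) - g φ (f (rad j • z))‖ +
        4 * ‖g φ (f (rad j • z))‖ * ‖exp (-(I * (Sj φ A h f (j + 1) z : ℂ))) -
        exp (-(I * (Sj φ A h f j z : ℂ)))‖ ≤ (20 * L ^ 2 + 4 * L) * δ := by
      rw [mul_assoc]
      linarith
    refine e7.trans ?_
    have e8 : (20 * L ^ 2 + 4 * L) * δ ≤ (20 * L ^ 2 + 4 * L) * (K * (a / u) * st j z) :=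
      mul_le_mul_of_nonneg_left f2 (by positivity)
    refine e8.trans ?_
    have e9 : (20 * L ^ 2 + 4 * L) * (K * (a / u) * st j z) =
        (K * (20 * L ^ 2 + 4 * L)) * (a * (st j z / u)) := by ring
    rw [e9, mul_assoc C₃]
    refine mul_le_mul_of_nonneg_right ?_ (mul_nonneg ha0.le (div_nonneg s0 u0.le))
    have e10 : 0 ≤ 4 * L + 6 * K * (L ^ 2 + L) + 8 * L * C₂ + 24 * L ^ 2 * K := by positivity
    rw [hC₃]
    linarith
  · obtain ⟨x1, x2, -, -⟩ := f3 ξ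
    have hbn := B_open.mem_nhds hz
    have hGd : DifferentiableAt ℝ (fun w => g φ (f (rad j • w))) z :=
      ((hgF.contDiffAt hbn).differentiableAt (by norm_num))
    have hSd : DifferentiableAt ℝ (Sj φ A h f j) z :=
      ((hSj.contDiffAt hbn).differentiableAt (by norm_num))
    have hFd : DifferentiableAt ℝ (fun w => f (rad j • w)) z :=
      ((hFj.contDiffAt hbn).differentiableAt (by norm_num))
    have e1 := dP hGd hSd ξ
    rw [hPj]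
    refine e1.trans ?_
    have e2 : ‖fderiv ℝ (fun w => g φ (f (rad j • w))) z ξ‖ ≤ (L ^ 2 + L) * ‖xj f j z ξ‖ := by
      have c1 := g_fd D.φ1 D.φ3 D.φ2 D.φ4 hL0.le (f (rad j • z))
      have c2 : HasFDerivAt (fun w => g φ (f (rad j • w)))
          ((fderiv ℝ (g φ) (f (rad j • z))).comp (fderiv ℝ (fun w => f (rad j • w)) z)) z := by
        have c0 : HasFDerivAt (g φ) (fderiv ℝ (g φ) (f (rad j • z)))
            ((fun w => f (rad j • w)) z) := c1.1.hasFDerivAt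
        exact c0.comp z hFd.hasFDerivAt
      rw [c2.fderiv, ContinuousLinearMap.comp_apply, x2]
      exact ((fderiv ℝ (g φ) (f (rad j • z))).le_opNorm _).trans
        (mul_le_mul_of_nonneg_right c1.2 (norm_nonneg _))
    have e3 := dS hSd ξ
    obtain ⟨l, hl⟩ : ∃ l, l = len z ξ := ⟨_, rfl⟩
    have hl0 : 0 ≤ l := by rw [hl]; exact len_nonneg _ _
    obtain ⟨E₀, hE₀⟩ : ∃ E₀, E₀ = ‖db (fun w => (Sj φ A h f j w : ℂ)) z ξ -
      I * starRingEnd ℂ (pj φ A h f j z * xj f j z ξ)‖ := ⟨_, rfl⟩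
    have hE0 : 0 ≤ E₀ := by rw [hE₀]; exact norm_nonneg _
    have e4 := hSe z hz ξ
    rw [← hE₀, ← ha, ← hu, ← hl] at e4
    have e5 : ‖db (fun w => (Sj φ A h f j w : ℂ)) z ξ‖ ≤
        E₀ + ‖pj φ A h f j z‖ * ‖xj f j z ξ‖ := by
      have c1 := norm_add_le (db (fun w => (Sj φ A h f j w : ℂ)) z ξ -
        I * starRingEnd ℂ (pj φ A h f j z * xj f j z ξ))
        (I * starRingEnd ℂ (pj φ A h f j z * xj f j z ξ))
      rw [sub_add_cancel, ← hE₀, norm_mul I, Complex.norm_I, one_mul, RCLike.norm_conj,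
        norm_mul] at c1
      exact c1
    rw [← hl] at x1 ⊢
    -- `|g| E₀ ≤ L C₂ a u² l`
    have e6 : ‖g φ (f (rad j • z))‖ * E₀ ≤ L * C₂ * (a * u ^ 2 * l) := by
      obtain ⟨q, hq⟩ : ∃ q, q = Real.sqrt (lam φ (f (rad j • z)) (al A h j z)) := ⟨_, rfl⟩
      have hq0 : al A h j z ≤ q := by
        rw [hq]
        apply Real.le_sqrt_of_sq_le
        unfold lam
        have := sq_nonneg (φ (f (rad j • z)))
        linarith
      have hqa : a ≤ q := by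
        have c1 : 1 * a ≤ A * a := mul_le_mul_of_nonneg_right hA1 ha0.le
        linarith
      have hqp : 0 < q := by linarith
      have hql : lj φ A h f j z = q ^ 2 := by
        rw [hq, Real.sq_sqrt]
        · rfl
        · unfold lam; positivity
      rw [← hq] at p3
      have c2 : ‖g φ (f (rad j • z))‖ ≤ L * q := by
        rw [(hg _).1]
        rw [norm_mul, norm_mul, Complex.norm_real, Real.norm_eq_abs, abs_of_nonneg hφ0] at p3
        have n2 : ‖(2 : ℂ)‖ = 2 := by simp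
        rw [n2] at p3
        linarith
      rw [hql] at e4
      have c3 : q * E₀ ≤ C₂ * a * u ^ 2 * l := by
        have c4 : q * (q * E₀) ≤ q * (C₂ * a * u ^ 2 * l) := by
          calc q * (q * E₀) = q ^ 2 * E₀ := by ring
            _ ≤ C₂ * a ^ 2 * u ^ 2 * l := e4
            _ = a * (C₂ * a * u ^ 2 * l) := by ring
            _ ≤ q * (C₂ * a * u ^ 2 * l) :=
              mul_le_mul_of_nonneg_right hqa (by positivity)
        exact le_of_mul_le_mul_left c4 hqp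
      calc ‖g φ (f (rad j • z))‖ * E₀ ≤ L * q * E₀ := mul_le_mul_of_nonneg_right c2 hE0
        _ = L * (q * E₀) := by ring
        _ ≤ L * (C₂ * a * u ^ 2 * l) := mul_le_mul_of_nonneg_left c3 hL0.le
        _ = _ := by ring
    have e7 : ‖xj f j z ξ‖ ≤ 3 / 2 * K * (a * u ^ 2 * l) := by
      refine x1.trans ?_
      have c1 : u ^ 3 ≤ u ^ 2 := by
        have : u ^ 3 = u ^ 2 * u := by ring
        rw [this]
        exact mul_le_of_le_one_right (by positivity) u1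
      have c2 : u ^ 3 * l ≤ u ^ 2 * l := mul_le_mul_of_nonneg_right c1 hl0
      have c3 := mul_le_mul_of_nonneg_left c2 (by positivity : 0 ≤ 3 / 2 * K * a)
      linarith
    have e8 : ‖g φ (f (rad j • z))‖ * |fderiv ℝ (Sj φ A h f j) z ξ| ≤
        2 * (L * C₂ * (a * u ^ 2 * l) + 2 * L ^ 2 * ‖xj f j z ξ‖) := by
      have c1 := mul_le_mul_of_nonneg_left e3 (norm_nonneg (g φ (f (rad j • z))))
      have c2 := mul_le_mul_of_nonneg_left e5 (norm_nonneg (g φ (f (rad j • z))))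
      have c3 := mul_le_mul_of_nonneg_right hgp (norm_nonneg (xj f j z ξ))
      have c4 : ‖g φ (f (rad j • z))‖ * (E₀ + ‖pj φ A h f j z‖ * ‖xj f j z ξ‖) =
          ‖g φ (f (rad j • z))‖ * E₀ +
            ‖g φ (f (rad j • z))‖ * ‖pj φ A h f j z‖ * ‖xj f j z ξ‖ := by ring
      rw [c4] at c2
      have c5 : ‖g φ (f (rad j • z))‖ * (2 * ‖db (fun w => (Sj φ A h f j w : ℂ)) z ξ‖) =
          2 * (‖g φ (f (rad j • z))‖ * ‖db (fun w => (Sj φ A h f j w : ℂ)) z ξ‖) := by ring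
      rw [c5] at c1
      linarith
    obtain ⟨m, hm⟩ : ∃ m, m = a * u ^ 2 * l := ⟨_, rfl⟩
    have hm0 : 0 ≤ m := by rw [hm]; positivity
    rw [← hm] at e7 e8
    have e9 : (L ^ 2 + L) * ‖xj f j z ξ‖ ≤ (L ^ 2 + L) * (3 / 2 * K * m) :=
      mul_le_mul_of_nonneg_left e7 (by positivity)
    have e10 : 2 * L ^ 2 * ‖xj f j z ξ‖ ≤ 2 * L ^ 2 * (3 / 2 * K * m) :=
      mul_le_mul_of_nonneg_left e7 (by positivity)
    have e11 : C₃ * a * u ^ 2 * l = C₃ * m := by rw [hm]; ring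
    rw [e11, hC₃]
    have e12 : 0 ≤ (4 * L + K * (20 * L ^ 2 + 4 * L)) * m := by positivity
    have e13 : (4 * L + K * (20 * L ^ 2 + 4 * L) + 6 * K * (L ^ 2 + L) +
      8 * L * C₂ + 24 * L ^ 2 * K) * m = (4 * L + K * (20 * L ^ 2 + 4 * L)) * m +
      4 * ((L ^ 2 + L) * (3 / 2 * K * m)) + 8 * (L * C₂ * m) +
      8 * (2 * L ^ 2 * (3 / 2 * K * m)) := by ring
    rw [e13]
    linarith

end Pool.Agent.N833.RK
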